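import Pool.Agent.Q278.BlkCyc
import Pool.Agent.Q278.Blk4
import Pool.Agent.Q278.SixPhi

set_option autoImplicit false

/-! The q-supercongruence with factors `[4k+1]` and `q^(k²)`. -/

namespace Pool.Agent.Results.MP_dac99f_nt.Full

open Finset Polynomial Q278.Loc Q278.Cyc Q278.Unit Q278.Smooth Q278.Blk

/-- `[m] = 1 + q + ⋯ + q ^ (m - 1)`. -/
noncomputable def qint (m : ℕ) : RatFunc ℚ := ∑ i ∈ range m, RatFunc.X ^ i

/-- `(a; Q)_k`. -/
noncomputable def poch (a Q : RatFunc ℚ) (k : ℕ) : RatFunc ℚ := ∏ j ∈ range k, (1 - a * Q ^ j)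

/-- `S_{m,n}(q)`. -/
noncomputable def S (m n : ℕ) : RatFunc ℚ := ∑ k ∈ range (m * n), (-1) ^ k * qint (4 * k + 1) *
  RatFunc.X ^ (k ^ 2) * (poch RatFunc.X (RatFunc.X ^ 2) k ^ 3 /
    poch (RatFunc.X ^ 2) (RatFunc.X ^ 2) k ^ 3)

/-- `c_m`. -/
def cm (m : ℕ) : ℚ := ∑ k ∈ range m, (-1) ^ k * (4 * k + 1) *
  ((∏ i ∈ range k, ((1 : ℚ) / 2 + i)) ^ 3 / (k.factorial : ℚ) ^ 3)

/-- The difference of the two sides. -/
noncomputable def D (m n : ℕ) : RatFunc ℚ :=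
  S m n - (-1) ^ ((n - 1) / 2) * RatFunc.X ^ ((n - 1) ^ 2 / 4) * qint n * ((cm m : ℚ) : RatFunc ℚ)

/-- The congruence modulo `Φ_n(q)²`. -/
def Holds (m n : ℕ) : Prop := cyclotomic n ℚ ^ 2 ∣ RatFunc.num (D m n) ∧
  IsCoprime (RatFunc.denom (D m n)) (cyclotomic n ℚ ^ 2)

theorem qint_eq (m : ℕ) : (1 - q) * qint m = 1 - q ^ m := by
  have := geom_sum_mul q m
  unfold qint
  linear_combination -this

theorem r_eq (k : ℕ) : poch RatFunc.X (RatFunc.X ^ 2) k ^ 3 /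
    poch (RatFunc.X ^ 2) (RatFunc.X ^ 2) k ^ 3 = r q k ^ 3 := by
  unfold poch r
  rw [← div_pow, ← prod_div_distrib]
  congr 1
  exact prod_congr rfl (fun l _ => by congr 1 <;> ring)

theorem cm_eq (m : ℕ) : ((cm m : ℚ) : RatFunc ℚ) =
    ∑ k ∈ range m, (-1) ^ k * (4 * k + 1) * c (RatFunc ℚ) k ^ 3 := by
  have h : ∀ k, (∏ i ∈ range k, ((1 : ℚ) / 2 + i)) / (k.factorial : ℚ) =
      ∏ i ∈ range k, (((2 * i + 1 : ℕ) : ℚ) / ((2 * i + 2 : ℕ) : ℚ)) := by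
    intro k
    induction k with
    | zero => simp
    | succ k ih =>
      rw [prod_range_succ, prod_range_succ, ← ih, Nat.factorial_succ]
      have : (k.factorial : ℚ) ≠ 0 := by exact_mod_cast k.factorial_ne_zero
      push_cast
      field_simp
      ring
  unfold cm c
  simp_rw [← div_pow, h]
  push_cast
  rfl

section loc

variable {n N : ℕ} {η : ℂ}

/-- the terms, with parameter `s` -/
noncomputable def f (n i : ℕ) (s : ℤ) : RatFunc ℚ :=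
  (-1) ^ i * (1 - (q ^ n) ^ s * (q ^ n) ^ s * q ^ (4 * i + 1)) * ((q ^ n) ^ s) ^ i * q ^ (i ^ 2) *
    rs n q s i ^ 3

/-- the factors of the blocks -/
noncomputable def A (n j : ℕ) : RatFunc ℚ :=
  (-1) ^ j * (q ^ n) ^ (n * j ^ 2) * r q (n * j) ^ 3 / (1 - q)

variable (hη : IsPrimitiveRoot η n) (hn : n = 2 * N + 1)
include hη hn

theorem H1 : H (Reg η) (Φ n) n N q := by
  have := cycH hη hn (d := 1) (Nat.coprime_one_right n) one_pos
  rwa [pow_one] at this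

theorem sm_f {i : ℕ} (hi : i ≤ N) : Sm (Reg η) (Φ n) 2 0 (f n i) := by
  have h := H1 hη hn
  have h1 : (q ^ n) - 1 ∈ I (Reg η) (Φ n) 1 := by
    rw [← neg_sub]; exact (I (Reg η) (Φ n) 1).neg_mem h.hw
  have z := Sm.zpow (r := 2) h.hπ h.Uw h1
  have s1 : Sm (Reg η) (Φ n) 2 0 (fun s : ℤ => (-1 : RatFunc ℚ) ^ i) :=
    Sm.const h.hπ (of_O ((Reg η).pow_mem ((Reg η).neg_mem (Reg η).one_mem) i))
  have s2 : Sm (Reg η) (Φ n) 2 0 (fun s : ℤ => 1 - (q ^ n) ^ s * (q ^ n) ^ s * q ^ (4 * i + 1)) := by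
    have z2 := Sm.mul h.hπ (Sm.mul h.hπ z z) (Sm.const (r := 2) h.hπ (of_O (q_pow_mem η (4 * i + 1))))
    have z3 := (Sm.const (r := 2) h.hπ (of_O (Reg η).one_mem)).sub z2
    simpa using z3
  have s3 := Sm.pow h.hπ z i
  have s4 : Sm (Reg η) (Φ n) 2 0 (fun s : ℤ => q ^ (i ^ 2)) :=
    Sm.const h.hπ (of_O (q_pow_mem η _))
  have s5 := Sm.pow h.hπ (h.sm_rs 2 hi) 3
  unfold f
  have := Sm.mul h.hπ (Sm.mul h.hπ (Sm.mul h.hπ (Sm.mul h.hπ s1 s2) s3) s4) s5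
  simpa using this

/-- the blocks -/
theorem block (j i : ℕ) : (-1) ^ (n * j + i) * qint (4 * (n * j + i) + 1) *
    RatFunc.X ^ ((n * j + i) ^ 2) * (poch RatFunc.X (RatFunc.X ^ 2) (n * j + i) ^ 3 /
    poch (RatFunc.X ^ 2) (RatFunc.X ^ 2) (n * j + i) ^ 3) = A n j * f n i (2 * j) := by
  rw [r_eq]
  unfold A f
  have h1q : (1 : RatFunc ℚ) - q ≠ 0 := by
    have := one_sub_q_ne (show 0 < 1 by norm_num)
    rwa [pow_one] at this
  have e0 : qint (4 * (n * j + i) + 1) = (1 - q ^ (4 * (n * j + i) + 1)) / (1 - q) := by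
    rw [eq_div_iff h1q, mul_comm]; exact qint_eq _
  have e1 : ((q ^ n) ^ (2 * (j : ℤ))) = (q ^ n) ^ (2 * j) := by
    rw [show (2 * (j : ℤ)) = ((2 * j : ℕ) : ℤ) by push_cast; rfl, zpow_natCast]
  have e2 : (-1 : RatFunc ℚ) ^ (n * j + i) = (-1) ^ j * (-1) ^ i := by
    rw [pow_add, hn, show (2 * N + 1) * j = 2 * (N * j) + j by ring, pow_add, pow_mul]
    norm_num
  have e3 : q ^ (4 * (n * j + i) + 1) = (q ^ n) ^ (2 * j) * (q ^ n) ^ (2 * j) * q ^ (4 * i + 1) := by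
    simp only [← pow_mul, ← pow_add]; congr 1; ring
  have e4 : (RatFunc.X : RatFunc ℚ) ^ ((n * j + i) ^ 2) =
      (q ^ n) ^ (n * j ^ 2) * ((q ^ n) ^ (2 * j)) ^ i * q ^ (i ^ 2) := by
    simp only [← pow_mul, ← pow_add]; congr 1; ring
  rw [e0, e1, e2, e3, e4, r_split (n := n)]
  ring

/-- the reversal -/
theorem F_rev : ∑ i ∈ range (N + 1), f n i (-1) =
    ((-1) ^ (N + 1) * (q ^ (N ^ 2 + N + 1))⁻¹ * rs n q (-1) N ^ 3) *
      ∑ i ∈ range (N + 1), f n i 0 := by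
  have h := H1 hη hn
  have hq0 : q ≠ 0 := q_ne
  rw [← sum_range_reflect, mul_sum]
  apply sum_congr rfl
  intro i hi
  have hi' := mem_range.1 hi
  rw [show N + 1 - 1 - i = N - i by omega]
  unfold f
  rw [h.rev i (by omega), rs_zero, zpow_zero, zpow_neg_one, one_mul, one_mul, one_pow, mul_one]
  have hw0 := h.Uw.2.2
  obtain ⟨d, hd⟩ : ∃ d, N = i + d := ⟨N - i, by omega⟩
  have e1 : (q ^ n)⁻¹ * (q ^ n)⁻¹ * q ^ (4 * (N - i) + 1) = (q ^ (4 * i + 1))⁻¹ := by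
    have : q ^ n * q ^ n = q ^ (4 * (N - i) + 1) * q ^ (4 * i + 1) := by
      rw [← pow_add, ← pow_add]; congr 1; omega
    rw [← mul_inv, this]; field_simp
  have e2 : 1 - (q ^ (4 * i + 1))⁻¹ = -(q ^ (4 * i + 1))⁻¹ * (1 - q ^ (4 * i + 1)) := by
    field_simp; ring
  have e3 : (-1 : RatFunc ℚ) ^ (N - i) * (-1) = (-1) ^ (N + 1) * (-1) ^ i := by
    rw [hd, show i + d - i = d by omega, show i + d + 1 = d + 1 + i by ring, pow_add _ (d + 1) i,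
      pow_succ, mul_assoc _ ((-1 : RatFunc ℚ) ^ i), ← pow_add, ← two_mul, pow_mul]
    norm_num
  have e4 : (q ^ (4 * i + 1))⁻¹ * (((q ^ n)⁻¹) ^ (N - i) * (q ^ ((N - i) ^ 2)) * (q ^ i) ^ 3) =
      (q ^ (N ^ 2 + N + 1))⁻¹ * q ^ (i ^ 2) := by
    have h1 : q ^ (N ^ 2 + N + 1) * (q ^ ((N - i) ^ 2) * (q ^ i) ^ 3) =
        q ^ (i ^ 2) * (q ^ (4 * i + 1) * (q ^ n) ^ (N - i)) := by
      simp only [← pow_mul, ← pow_add]
      congr 1
      rw [hn, hd, show i + d - i = d by omega]; ring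
    have hA : q ^ (N ^ 2 + N + 1) ≠ 0 := pow_ne_zero _ hq0
    have hB : q ^ (4 * i + 1) ≠ 0 := pow_ne_zero _ hq0
    have hC : (q ^ n) ^ (N - i) ≠ 0 := pow_ne_zero _ hw0
    rw [inv_pow]
    generalize q ^ (N ^ 2 + N + 1) = a at *
    generalize q ^ (4 * i + 1) = b at *
    generalize (q ^ n) ^ (N - i) = d' at *
    generalize q ^ ((N - i) ^ 2) = x at *
    generalize q ^ (i ^ 2) = y at *
    generalize (q ^ i) ^ 3 = z at *
    field_simp
    linear_combination h1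
  rw [e1, e2]
  linear_combination ((-1) ^ (N - i) * (-1) * (1 - q ^ (4 * i + 1)) * rs n q (-1) N ^ 3 *
    r q i ^ 3) * e4 + ((1 - q ^ (4 * i + 1)) * rs n q (-1) N ^ 3 * r q i ^ 3 *
      (q ^ (N ^ 2 + N + 1))⁻¹ * q ^ (i ^ 2)) * e3

/-! ### The first block -/

/-- the product with the parameter -/
noncomputable def T (n k : ℕ) : RatFunc ℚ := ∏ l ∈ range k,
    ((1 - q ^ (2 * l + 1)) * ((1 - q ^ (2 * l + 1) * q ^ n) * (1 - q ^ (2 * l + 1) * (q ^ n)⁻¹)) /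
      ((1 - q ^ (2 * l + 2)) * ((1 - q ^ (2 * l + 2) * q ^ n) *
        (1 - q ^ (2 * l + 2) * (q ^ n)⁻¹))))

theorem cg_T {k : ℕ} (hk : k ≤ N) : Cg (Reg η) (Φ n) 2 (r q k ^ 3) (T n k) := by
  have h := H1 hη hn
  unfold r T
  rw [← prod_pow]
  apply Cg.prod
  intro l hl
  have hl' := mem_range.1 hl
  obtain ⟨n1, n2⟩ := not_dvd_lt hn (show l < N by omega)
  have h1 := (Cg.refl (k := 2) (π := Φ n) (h.hu _ n1)).mul (h.pair_y n1)
  have h2 := (Cg.refl (k := 2) (π := Φ n) (h.hu _ n2)).mul (h.pair_y n2)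
  have h3 := h1.mul h2.inv
  rw [← div_eq_mul_inv, ← div_eq_mul_inv] at h3
  convert h3 using 1
  rw [div_pow]
  congr 1 <;> ring

theorem closed : ∑ k ∈ range (N + 1), (-1) ^ k * (1 - q ^ (4 * k + 1)) * q ^ (k ^ 2) * T n k =
    (1 - q ^ n) * ((-1) ^ N * q ^ (N ^ 2)) := by
  have h := H1 hη hn
  have hq0 : q ≠ 0 := q_ne
  have hw0 := h.Uw.2.2
  have hyn : ∀ j, j < N → 1 - q ^ (2 * j + 2) * (q ^ n)⁻¹ ≠ 0 := by
    intro j hj
    have h1 := (h.Us (-1) (not_dvd_lt hn hj).2).2.2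
    rwa [zpow_neg_one, mul_comm] at h1
  have hs := Q278.SixPhi.sum (q ^ 2) N q ((q * q ^ n)⁻¹) 0
    (fun j hj => by rw [← pow_mul]; exact one_sub_q_ne (by omega))
    (fun j hj => by
      rw [← pow_mul, ← pow_succ']; exact one_sub_q_ne (by omega))
    (fun j hj => by
      have h1 : q * (q ^ 2) ^ (j + 1) * (q * q ^ n)⁻¹ = q ^ (2 * j + 2) * (q ^ n)⁻¹ := by
        field_simp; ring
      rw [h1]
      exact hyn j hj)
    (fun j hj => by simp)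
  have hr : ∀ j, j < N → Q278.SixPhi.r (q ^ 2) q ((q * q ^ n)⁻¹) 0 N j =
      (-q ^ (2 * j + 1)) * ((1 - q ^ (2 * j + 1)) * ((1 - q ^ (2 * j + 1) * q ^ n) *
        (1 - q ^ (2 * j + 1) * (q ^ n)⁻¹)) /
      ((1 - q ^ (2 * j + 2)) * ((1 - q ^ (2 * j + 2) * q ^ n) *
        (1 - q ^ (2 * j + 2) * (q ^ n)⁻¹)))) := by
    intro j hj
    unfold Q278.SixPhi.r
    have e1 : q * (q ^ 2) ^ j = q ^ (2 * j + 1) := by ring
    have e2 : (q ^ 2) ^ N - (q ^ 2) ^ j = (q ^ n * q⁻¹) * (1 - q ^ (2 * j + 1) * (q ^ n)⁻¹) := by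
      have h1 : (q ^ 2) ^ N * q = q ^ n := by
        rw [← pow_mul, ← pow_succ, hn]
      rw [← h1]; field_simp; ring
    have e3 : (q * q ^ n)⁻¹ - (q ^ 2) ^ j = ((q ^ n)⁻¹ * q⁻¹) * (1 - q ^ (2 * j + 1) * q ^ n) := by
      field_simp; ring
    have e5 : (q ^ 2) ^ (j + 1) = q ^ (2 * j + 2) := by ring
    have e6 : q * (q ^ 2) ^ (N + 1 + j) = q ^ (2 * j + 2) * q ^ n := by
      rw [← pow_mul, ← pow_succ', ← pow_add]; congr 1; omega
    have e7 : q * (q ^ 2) ^ (j + 1) * (q * q ^ n)⁻¹ = q ^ (2 * j + 2) * (q ^ n)⁻¹ := by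
      field_simp; ring
    have e8 : (0 : RatFunc ℚ) - (q ^ 2) ^ j = -(q ^ (2 * j + 1) * q⁻¹) := by
      field_simp; ring
    rw [e1, e2, e3, e6, e7, e8, e5, mul_zero, sub_zero, mul_one]
    generalize 1 - q ^ (2 * j + 1) = v1 at *
    generalize 1 - q ^ (2 * j + 1) * q ^ n = v2 at *
    generalize 1 - q ^ (2 * j + 1) * (q ^ n)⁻¹ = v3 at *
    generalize 1 - q ^ (2 * j + 2) = u1 at *
    generalize 1 - q ^ (2 * j + 2) * q ^ n = u2 at *
    generalize 1 - q ^ (2 * j + 2) * (q ^ n)⁻¹ = u3 at *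
    generalize q ^ (2 * j + 1) = z at *
    generalize q ^ n = y at *
    field_simp
  have hsq : ∀ k, ∏ j ∈ range k, (-q ^ (2 * j + 1)) = (-1) ^ k * q ^ (k ^ 2) := by
    intro k
    induction k with
    | zero => simp
    | succ k ih =>
      rw [prod_range_succ, ih, show (k + 1) ^ 2 = k ^ 2 + (2 * k + 1) by ring, pow_add q (k ^ 2),
        pow_succ]
      ring
  have hterm : ∀ k ∈ range (N + 1), (1 - q * (q ^ 2) ^ (2 * k)) * ∏ j ∈ range k,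
      Q278.SixPhi.r (q ^ 2) q ((q * q ^ n)⁻¹) 0 N j =
      (-1) ^ k * (1 - q ^ (4 * k + 1)) * q ^ (k ^ 2) * T n k := by
    intro k hk
    have hk' := mem_range.1 hk
    rw [prod_congr rfl (fun j hj => hr j (by have := mem_range.1 hj; omega)), prod_mul_distrib, hsq]
    have e1 : q * (q ^ 2) ^ (2 * k) = q ^ (4 * k + 1) := by ring
    rw [e1]
    unfold T
    ring
  rw [sum_congr rfl hterm] at hs
  rw [hs, prod_range_succ, show q * (q ^ 2) ^ N = q ^ n by rw [← pow_mul, ← pow_succ', hn],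
    mul_comm (∏ x ∈ range N, (1 - q * (q ^ 2) ^ x)), mul_assoc]
  congr 1
  have e2 : ∏ j ∈ range N, ((1 - q * (q ^ 2) ^ (j + 1) * (q * q ^ n)⁻¹ * 0) /
      ((1 - q * (q ^ 2) ^ (j + 1) * (q * q ^ n)⁻¹) * (1 - q * (q ^ 2) ^ (j + 1) * 0))) =
      ∏ j ∈ range N, ((-q ^ (2 * j + 1)) * (1 - q * (q ^ 2) ^ j)⁻¹) := by
    rw [← prod_range_reflect (fun j => (-q ^ (2 * j + 1)) * (1 - q * (q ^ 2) ^ j)⁻¹)]
    apply prod_congr rfl
    intro j hj
    have hj' := mem_range.1 hj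
    have e3 : q * (q ^ 2) ^ (j + 1) * (q * q ^ n)⁻¹ = (q ^ (2 * (N - 1 - j) + 1))⁻¹ := by
      have h1 : q ^ n = (q ^ 2) ^ (j + 1) * q ^ (2 * (N - 1 - j) + 1) := by
        rw [← pow_mul, ← pow_add]; congr 1; omega
      rw [h1]; field_simp
    have e4 : q * (q ^ 2) ^ (N - 1 - j) = q ^ (2 * (N - 1 - j) + 1) := by ring
    rw [e3, e4, mul_zero, mul_zero, sub_zero, mul_one]
    have h3 := one_sub_q_ne (show 0 < 2 * (N - 1 - j) + 1 by omega)
    have h4 : q ^ (2 * (N - 1 - j) + 1) ≠ 0 := pow_ne_zero _ hq0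
    have e5 : 1 - (q ^ (2 * (N - 1 - j) + 1))⁻¹ =
        -(q ^ (2 * (N - 1 - j) + 1))⁻¹ * (1 - q ^ (2 * (N - 1 - j) + 1)) := by
      field_simp; ring
    rw [e5]
    generalize 1 - q ^ (2 * (N - 1 - j) + 1) = x at *
    generalize q ^ (2 * (N - 1 - j) + 1) = y at *
    field_simp
  rw [e2, prod_mul_distrib, hsq, prod_inv_distrib]
  have e6 : ∏ x ∈ range N, (1 - q * (q ^ 2) ^ x) ≠ 0 := by
    rw [prod_ne_zero_iff]
    intro x _
    rw [← pow_mul, ← pow_succ']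
    exact one_sub_q_ne (by omega)
  field_simp

theorem F_zero : ∑ i ∈ range (N + 1), f n i 0 - (1 - q ^ n) * ((-1) ^ N * q ^ (N ^ 2)) ∈
    I (Reg η) (Φ n) 2 := by
  have h1 : ∑ k ∈ range (N + 1), ((-1) ^ k * (1 - q ^ (4 * k + 1)) * q ^ (k ^ 2)) *
      (r q k ^ 3 - T n k) ∈ I (Reg η) (Φ n) 2 := by
    apply AddSubgroup.sum_mem
    intro k hk
    have hk' := mem_range.1 hk
    exact mul_O ((Reg η).mul_mem ((Reg η).mul_mem ((Reg η).pow_mem ((Reg η).neg_mem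
      (Reg η).one_mem) k) (one_sub_mem η _)) (q_pow_mem η _)) (cg_T hη hn (by omega)).2.2
  rw [← closed hη hn]
  convert h1 using 1
  rw [← sum_sub_distrib]
  apply sum_congr rfl
  intro k _
  unfold f
  rw [rs_zero, zpow_zero, one_pow, one_mul, one_mul]
  ring

theorem local_main (hN : 0 < N) (m : ℕ) : D m n ∈ I (Reg η) (Φ n) 2 := by
  have h := H1 hη hn
  have hq0 : q ≠ 0 := q_ne
  have h1q : U (Reg η) (1 - q) := by
    have := h.hu 1 (by intro hd; have := Nat.le_of_dvd one_pos hd; omega)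
    rwa [pow_one] at this
  have hAm : ∀ j, A n j ∈ Reg η := by
    intro j
    unfold A
    rw [div_eq_mul_inv]
    exact (Reg η).mul_mem ((Reg η).mul_mem ((Reg η).mul_mem ((Reg η).pow_mem ((Reg η).neg_mem
      (Reg η).one_mem) j) (h.Uw.pow _).1) ((h.r_block j).1.pow 3).1) h1q.2.1
  have hκ : 1 + (-1) ^ (N + 1) * (q ^ (N ^ 2 + N + 1))⁻¹ * rs n q (-1) N ^ 3 ∈
      I (Reg η) (Φ n) 1 := by
    have a1 : rs n q (-1) N = (q ^ N)⁻¹ * (r q N)⁻¹ := by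
      rw [← mul_inv]; exact eq_inv_of_mul_eq_one_left h.rev_N
    rw [a1]
    have hm1 : U (Reg η) ((-1 : RatFunc ℚ)) := by
      refine ⟨(Reg η).neg_mem (Reg η).one_mem, ?_, by norm_num⟩
      rw [inv_neg, inv_one]
      exact (Reg η).neg_mem (Reg η).one_mem
    have c1 := (Cg.refl (k := 1) (π := Φ n) (h.hp.pow N).inv).mul h.r_N.inv
    have c2 := (Cg.refl (k := 1) (π := Φ n) ((hm1.pow (N + 1)).mul
      (h.hp.pow (N ^ 2 + N + 1)).inv)).mul (c1.pow 3)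
    have e : (-1) ^ (N + 1) * (q ^ (N ^ 2 + N + 1))⁻¹ *
        ((q ^ N)⁻¹ * ((-1) ^ N * (q ^ (N * (N + 1)))⁻¹)⁻¹) ^ 3 =
        -((q ^ n) ^ N * (q ^ n)⁻¹) := by
      have h5 : (-1 : RatFunc ℚ) ^ (N + 1) * (((-1) ^ N)⁻¹) ^ 3 = -1 := by
        rcases neg_one_pow_eq_or (RatFunc ℚ) N with h6 | h6 <;> rw [pow_succ, h6] <;> norm_num
      have h6 : (q ^ (N * (N + 1))) ^ 3 * q ^ n =
          (q ^ n) ^ N * (q ^ (N ^ 2 + N + 1) * (q ^ N) ^ 3) := by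
        simp only [← pow_mul, ← pow_add]
        congr 1
        rw [hn]; ring
      have b1 : q ^ N ≠ 0 := pow_ne_zero _ hq0
      have b2 : q ^ (N ^ 2 + N + 1) ≠ 0 := pow_ne_zero _ hq0
      have b3 : q ^ n ≠ 0 := pow_ne_zero _ hq0
      rw [mul_inv ((-1 : RatFunc ℚ) ^ N), inv_inv, mul_pow, mul_pow]
      have e7 : (-1) ^ (N + 1) * (q ^ (N ^ 2 + N + 1))⁻¹ * ((q ^ N)⁻¹ ^ 3 *
          ((((-1) ^ N)⁻¹) ^ 3 * (q ^ (N * (N + 1))) ^ 3)) =
          ((-1 : RatFunc ℚ) ^ (N + 1) * (((-1) ^ N)⁻¹) ^ 3) * ((q ^ (N ^ 2 + N + 1))⁻¹ *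
            (q ^ N)⁻¹ ^ 3 * (q ^ (N * (N + 1))) ^ 3) := by ring
      rw [e7, h5]
      generalize (q ^ (N * (N + 1))) ^ 3 = x at *
      generalize q ^ N = t at *
      generalize q ^ (N ^ 2 + N + 1) = v at *
      generalize (q ^ n) ^ N = w at *
      generalize q ^ n = y at *
      field_simp
      linear_combination -h6
    rw [e] at c2
    have hw1 : Cg (Reg η) (Φ n) 1 (q ^ n) 1 :=
      ⟨h.Uw, U.one, by rw [← neg_sub]; exact (I (Reg η) (Φ n) 1).neg_mem h.hw⟩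
    have c3 := (hw1.pow N).mul hw1.inv
    rw [one_pow, inv_one, one_mul] at c3
    have c4 := (I (Reg η) (Φ n) 1).sub_mem c2.2.2 c3.2.2
    convert c4 using 1
    ring
  have hA : ∀ j, A n j - (-1) ^ j * c (RatFunc ℚ) j ^ 3 / (1 - q) ∈ I (Reg η) (Φ n) 1 := by
    intro j
    have hw1 : Cg (Reg η) (Φ n) 1 ((q ^ n) ^ (n * j ^ 2)) 1 :=
      ⟨h.Uw.pow _, U.one, by rw [← neg_sub]; exact (I (Reg η) (Φ n) 1).neg_mem (h.wn_mem _)⟩
    have c1 := hw1.mul ((h.r_block_one j).pow 3)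
    rw [one_mul] at c1
    have e : A n j - (-1) ^ j * c (RatFunc ℚ) j ^ 3 / (1 - q) =
        ((-1) ^ j * (1 - q)⁻¹) * ((q ^ n) ^ (n * j ^ 2) * r q (n * j) ^ 3 -
          c (RatFunc ℚ) j ^ 3) := by
      unfold A
      rw [div_eq_mul_inv, div_eq_mul_inv]
      ring
    rw [e]
    exact mul_O ((Reg η).mul_mem ((Reg η).pow_mem ((Reg η).neg_mem (Reg η).one_mem) j) h1q.2.1)
      c1.2.2
  have key := h.assemble_neg (fun k => (-1) ^ k * qint (4 * k + 1) *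
    RatFunc.X ^ (k ^ 2) * (poch RatFunc.X (RatFunc.X ^ 2) k ^ 3 /
    poch (RatFunc.X ^ 2) (RatFunc.X ^ 2) k ^ 3)) (A n) (f n) (fun j i _ => block hη hn j i)
    (fun j i hi hin => by
      show (-1) ^ (n * j + i) * qint (4 * (n * j + i) + 1) *
        RatFunc.X ^ ((n * j + i) ^ 2) * (poch RatFunc.X (RatFunc.X ^ 2) (n * j + i) ^ 3 /
        poch (RatFunc.X ^ 2) (RatFunc.X ^ 2) (n * j + i) ^ 3) ∈ I (Reg η) (Φ n) 2
      rw [block hη hn j i]
      refine mul_O (hAm j) ?_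
      unfold f
      have t1 := pow_I (h.tail j hi hin) 3
      have z := (h.wz (2 * j)).1
      exact mul_O ((Reg η).mul_mem ((Reg η).mul_mem ((Reg η).mul_mem ((Reg η).pow_mem
        ((Reg η).neg_mem (Reg η).one_mem) i) ((Reg η).sub_mem (Reg η).one_mem
        ((Reg η).mul_mem ((Reg η).mul_mem z z) (q_pow_mem η _)))) ((Reg η).pow_mem z i))
        (q_pow_mem η _)) (mono h.hπ (by norm_num) t1))
    (fun i hi => sm_f hη hn hi) _ hκ (F_rev hη hn) _ (F_zero hη hn)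
    (fun j => (-1) ^ j * c (RatFunc ℚ) j ^ 3 / (1 - q)) hAm hA m
  unfold D S
  rw [mul_comm m n]
  convert key using 2
  rw [cm_eq, mul_sum, mul_sum]
  apply sum_congr rfl
  intro j _
  have e1 : qint n = (1 - q ^ n) / (1 - q) := by
    rw [eq_div_iff h1q.2.2, mul_comm]; exact qint_eq _
  have e2 : (n - 1) / 2 = N := by omega
  have e3 : (n - 1) ^ 2 / 4 = N ^ 2 := by
    rw [hn, show 2 * N + 1 - 1 = 2 * N by omega, mul_pow]
    norm_num
  rw [e1, e2, e3]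
  ring

end loc

/-! ### The degenerate case `n = 1` -/

theorem not_one : ¬ Holds 2 1 := by
  rintro ⟨h1, h2⟩
  have hη : IsPrimitiveRoot (1 : ℂ) 1 := IsPrimitiveRoot.one
  have hmem : D 2 1 ∈ I (Reg 1) (Φ 1) 2 :=
    mem_of_cong one_pos hη two_pos h2 h1 (RatFunc.num_div_denom _).symm
  have h2 : (1 : RatFunc ℚ) - q ^ 2 ≠ 0 := one_sub_q_ne (by norm_num)
  have h1q : (1 : RatFunc ℚ) - q ≠ 0 := by
    have := one_sub_q_ne (show 0 < 1 by norm_num)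
    rwa [pow_one] at this
  have e1 : 8 * (1 + q) ^ 3 * D 2 1 = Φ 1 ^ 1 *
      (-8 * q ^ 4 - 16 * q ^ 3 - 19 * q ^ 2 - 12 * q - 5) := by
    have hΦ : Φ 1 = q - 1 := by
      unfold Φ
      rw [cyclotomic_one, map_sub, map_one, RatFunc.algebraMap_X]
    have hcm : cm 2 = 3 / 8 := by
      unfold cm
      simp [sum_range_succ, prod_range_succ]
      norm_num
    have hP : poch RatFunc.X (RatFunc.X ^ 2) 1 ^ 3 / poch (RatFunc.X ^ 2) (RatFunc.X ^ 2) 1 ^ 3 =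
        ((1 - q) / (1 - q ^ 2)) ^ 3 := by
      unfold poch
      simp [div_pow]
    have hP0 : poch RatFunc.X (RatFunc.X ^ 2) 0 ^ 3 / poch (RatFunc.X ^ 2) (RatFunc.X ^ 2) 0 ^ 3 =
        1 := by
      unfold poch
      simp
    have hq : (1 - q) / (1 - q ^ 2) = (1 + q)⁻¹ := by
      have h3 : (1 : RatFunc ℚ) - q ^ 2 = (1 - q) * (1 + q) := by ring
      have h4 : (1 : RatFunc ℚ) + q ≠ 0 := by
        intro h5; rw [h3, h5, mul_zero] at h2; exact h2 rfl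
      rw [h3]
      field_simp
    have h4 : (1 : RatFunc ℚ) + q ≠ 0 := by
      intro h5
      apply h2
      have : (1 : RatFunc ℚ) - q ^ 2 = (1 - q) * (1 + q) := by ring
      rw [this, h5, mul_zero]
    unfold D S
    rw [show 2 * 1 = 2 by norm_num, sum_range_succ, sum_range_succ, sum_range_zero, hP, hP0, hcm,
      hq, hΦ]
    unfold qint
    simp only [sum_range_succ, sum_range_zero, mul_zero, zero_add, mul_one, pow_zero, pow_one,
      one_mul, Nat.sub_self, Nat.zero_div, one_pow]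
    norm_num [sum_range_succ]
    field_simp
    ring
  have h3 : 8 * (1 + q) ^ 3 * D 2 1 ∈ I (Reg 1) (Φ 1) 2 := by
    refine mul_O ?_ hmem
    have h8 : (8 : RatFunc ℚ) ∈ Reg 1 := by exact_mod_cast nat_O (O := Reg 1) 8
    exact (Reg 1).mul_mem h8 ((Reg 1).pow_mem ((Reg 1).add_mem (Reg 1).one_mem (X_mem 1)) 3)
  rw [e1] at h3
  have h4 := pi_k_cancel (k := 1) (l := 1) h3
  have h5 := ev_of_mem one_pos hη h4
  have e2 : (-8 * q ^ 4 - 16 * q ^ 3 - 19 * q ^ 2 - 12 * q - 5) =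
      algebraMap ℚ[X] (RatFunc ℚ) (-8 * X ^ 4 - 16 * X ^ 3 - 19 * X ^ 2 - 12 * X - 5) := by
    simp only [map_sub, map_mul, map_pow, map_neg, map_ofNat, RatFunc.algebraMap_X]
  rw [e2, ev_poly] at h5
  simp at h5
  norm_num at h5

theorem result : (∀ m n : ℕ, 1 ≤ m → 1 < n → Odd n → Holds m n) ∧ ¬ Holds 2 1 := by
  refine ⟨?_, not_one⟩
  intro m n _ hn1 ⟨N, hN⟩
  have hη := Complex.isPrimitiveRoot_exp n (by omega : n ≠ 0)
  have h1 := local_main hη hN (by omega) m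
  obtain ⟨h2, h3⟩ := num_dvd (by omega) hη h1
  exact ⟨h2, h3.pow_right⟩

end Pool.Agent.Results.MP_dac99f_nt.Full
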